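import Pool.Agent.Work.MP_8b5b22_gt.Network

open Set Topology Filter TopologicalSpace

set_option linter.unusedSectionVars false

namespace Pool.Agent.Work.MP_8b5b22_gt

universe u

variable {X : Type u} [t : TopologicalSpace X]

/-- `Y` is thin: it is contained in a subspace which is ccc or has countable extent. -/
def Thin (Y : Set X) : Prop := ∃ S : Set X, Y ⊆ S ∧ (CCCSet S ∨ CountableExtent S)

/-- Every nonempty subset `Y` of `A` has a nonempty relatively open thin subset. -/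
def SomewhereThin (A : Set X) : Prop :=
  ∀ Y : Set X, Y ⊆ A → Y.Nonempty → ∃ O : Set X, IsOpen O ∧ (O ∩ Y).Nonempty ∧ Thin (O ∩ Y)

/-- No nonempty open subset is thin. -/
def NowhereThin (X : Type u) [TopologicalSpace X] : Prop :=
  ∀ O : Set X, IsOpen O → O.Nonempty → ¬ Thin O

lemma pointCountable {B : ℕ → Set (Set X)} (hBl : ∀ n, LocallyCountable (B n)) (x : X) :
    {b ∈ ⋃ n, B n | x ∈ b}.Countable := by
  have : {b ∈ ⋃ n, B n | x ∈ b} ⊆ ⋃ n, {b ∈ B n | x ∈ b} := by
    rintro b ⟨hb, hx⟩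
    obtain ⟨n, hn⟩ := mem_iUnion.1 hb
    exact mem_iUnion.2 ⟨n, hn, hx⟩
  refine Set.Countable.mono this (countable_iUnion fun n => ?_)
  obtain ⟨U, hU, hc⟩ := hBl n x
  refine hc.mono ?_
  rintro b ⟨hb, hx⟩
  exact ⟨hb, x, hx, mem_of_mem_nhds hU⟩

lemma small_of_thin {B : ℕ → Set (Set X)} (hB : IsTopologicalBasis (⋃ n, B n))
    (hBl : ∀ n, LocallyCountable (B n)) {Y : Set X} (h : Thin Y) :
    Small (⋃ n, B n) Y := by
  obtain ⟨S, hYS, h⟩ := h
  refine Small.mono (small_iUnion_left fun n => ?_) hYS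
  rcases h with h | h
  · exact small_of_ccc (hBl n) (fun b hb => hB.isOpen (mem_iUnion.2 ⟨n, hb⟩)) h
  · exact small_of_extent (hBl n) hB (pointCountable hBl) h

/-- From an assignment with small fibres to a network. -/
lemma network_of_assignment [RegularSpace X] {B : ℕ → Set (Set X)}
    (hB : IsTopologicalBasis (⋃ n, B n)) (hBl : ∀ n, LocallyCountable (B n))
    {A : Set X} {f : X → Set X} (hf : ∀ x ∈ A, f x ∈ (⋃ n, B n) ∧ x ∈ f x)
    (hs : ∀ b, Small (⋃ n, B n) {x ∈ A | f x = b}) : NetworkOn A := by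
  refine (networkOn_iUnion (Y := fun k => closure {x ∈ A | f x ∈ B k}) fun k => ?_).mono ?_
  · exact network_locallySmall hB isClosed_closure fun z =>
      locallySmall_piece (fun b hb => hB.isOpen hb) (hBl k) hs z (fun x hx => (hf x hx).2)
  · intro x hx
    obtain ⟨n, hn⟩ := mem_iUnion.1 (hf x hx).1
    exact mem_iUnion.2 ⟨n, subset_closure ⟨hx, hn⟩⟩

lemma network_of_somewhereThin [RegularSpace X] {B : ℕ → Set (Set X)}
    (hB : IsTopologicalBasis (⋃ n, B n)) (hBl : ∀ n, LocallyCountable (B n))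
    {A : Set X} (hA : SomewhereThin A) : NetworkOn A := by
  obtain ⟨O, f, hO, hf, hs, hmax⟩ := exists_maximal_assignment hB A
  have hAO : A ⊆ O := by
    by_contra hcon
    have hne : (A \ O).Nonempty := Set.sdiff_nonempty.2 hcon
    obtain ⟨P, hP, hPne, hPs⟩ := hA (A \ O) sdiff_subset hne
    exact hmax P hP hPne (small_of_thin hB hBl hPs)
  have hAO' : A ∩ O = A := inter_eq_left.2 hAO
  rw [hAO'] at hf hs
  exact network_of_assignment hB hBl (fun x hx => ⟨(hf x hx).1, (hf x hx).2.1⟩) hs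

theorem metrizable_of_cover (hX : CollectionwiseNormal X) (hbase : SigmaLocallyCountableBase X)
    {K : Set X} (hK : IsClosed K) (hKm : MetrizableSpace K) {A : ℕ → Set X}
    (hA : ∀ n, SomewhereThin (A n)) (hcov : Kᶜ ⊆ ⋃ n, A n) : MetrizableSpace X := by
  obtain ⟨B, hB, hBl⟩ := hbase
  have := hX.1
  have := normal_of_cwn hX
  refine metrizable_of_network hX hB (pointCountable hBl) ?_
  refine (networkOn_union (network_metrizable hK)
    (networkOn_iUnion fun n => network_of_somewhereThin hB hBl (hA n))).mono ?_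
  intro x _
  by_cases hx : x ∈ K
  · exact Or.inl hx
  · exact Or.inr (hcov hx)

/-- The kernel. -/
theorem exists_kernel (hX : CollectionwiseNormal X) (hbase : SigmaLocallyCountableBase X) :
    ∃ K : Set X, IsClosed K ∧
      (∀ P : Set X, IsOpen P → (P ∩ K).Nonempty → ¬ Thin (P ∩ K)) ∧
      (MetrizableSpace K → MetrizableSpace X) := by
  obtain ⟨B, hB, hBl⟩ := hbase
  have := hX.1
  have := normal_of_cwn hX
  obtain ⟨O, f, hO, hf, hs, hmax⟩ := exists_maximal_assignment hB (univ : Set X)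
  simp only [univ_inter, ← compl_eq_univ_sdiff] at hf hs hmax
  refine ⟨Oᶜ, hO.isClosed_compl, ?_, ?_⟩
  · intro P hP hne
    exact fun h => hmax P hP hne (small_of_thin hB hBl h)
  · intro hK
    refine metrizable_of_network hX hB (pointCountable hBl) ?_
    refine (networkOn_union (network_metrizable hO.isClosed_compl)
      (network_of_assignment hB hBl (fun x hx => ⟨(hf x hx).1, (hf x hx).2.1⟩) hs)).mono ?_
    intro x _
    by_cases hx : x ∈ O
    · exact Or.inr hx
    · exact Or.inl hx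

lemma cwn_closed (hX : CollectionwiseNormal X) {K : Set X} (hK : IsClosed K) :
    CollectionwiseNormal K := by
  have := hX.1
  refine ⟨inferInstance, ?_⟩
  intro ι F hF hd
  obtain ⟨V, hV, hFV, hVd⟩ := hX.2 ι (fun i => ((↑) '' F i : Set X))
    (fun i => hK.isClosedEmbedding_subtypeVal.isClosedMap _ (hF i)) (by
      intro x
      by_cases hx : x ∈ K
      · obtain ⟨U, hU, h⟩ := hd ⟨x, hx⟩
        obtain ⟨U', hU', hUU'⟩ := mem_nhds_subtype K ⟨x, hx⟩ U |>.1 hU
        refine ⟨U', hU', ?_⟩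
        rintro i j ⟨_, ⟨y, hy, rfl⟩, hyU⟩ ⟨_, ⟨z, hz, rfl⟩, hzU⟩
        exact h i j ⟨y, hy, hUU' hyU⟩ ⟨z, hz, hUU' hzU⟩
      · refine ⟨Kᶜ, hK.isOpen_compl.mem_nhds hx, ?_⟩
        rintro i j ⟨_, ⟨y, hy, rfl⟩, hyU⟩ _
        exact absurd y.2 hyU)
  refine ⟨fun i => (↑) ⁻¹' V i, fun i => (hV i).preimage continuous_subtype_val, ?_, ?_⟩
  · intro i x hx
    exact hFV i ⟨x, hx, rfl⟩
  · intro i j hij
    exact (hVd hij).preimage _

lemma base_closed (hbase : SigmaLocallyCountableBase X) (K : Set X) :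
    SigmaLocallyCountableBase K := by
  obtain ⟨B, hB, hBl⟩ := hbase
  refine ⟨fun n => (fun b : Set X => ((↑) ⁻¹' b : Set K)) '' B n, ?_, ?_⟩
  · have h := hB.induced ((↑) : K → X)
    rw [← image_iUnion]
    exact h
  · intro n x
    obtain ⟨U, hU, hc⟩ := hBl n x
    refine ⟨(↑) ⁻¹' U, continuous_subtype_val.continuousAt.preimage_mem_nhds hU, ?_⟩
    refine (hc.image (fun b : Set X => ((↑) ⁻¹' b : Set K))).mono ?_
    rintro _ ⟨⟨b, hb, rfl⟩, y, hyb, hyU⟩
    exact ⟨b, ⟨hb, y, hyb, hyU⟩, rfl⟩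

lemma thin_of_thin_subtype {K : Set X} {Y : Set K} (h : Thin Y) :
    Thin ((↑) '' Y : Set X) := by
  obtain ⟨S, hYS, h⟩ := h
  refine ⟨(↑) '' S, image_mono hYS, ?_⟩
  rcases h with hc | he
  · left
    intro W hW hWd
    let g : Set X → Set K := fun w => (↑) ⁻¹' w
    have hinj : InjOn g W := by
      intro u hu v hv huv
      by_contra hne
      obtain ⟨_, hyu, ⟨y, hyS, rfl⟩⟩ := (hW u hu).2
      have hyv : (y : X) ∈ v := by
        have : y ∈ g u := hyu
        rw [huv] at this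
        exact this
      exact Set.disjoint_left.1 (hWd u hu v hv hne) ⟨hyu, y, hyS, rfl⟩ ⟨hyv, y, hyS, rfl⟩
    refine Set.countable_of_injective_of_countable_image hinj ?_
    refine hc (g '' W) ?_ ?_
    · rintro _ ⟨w, hw, rfl⟩
      refine ⟨(hW w hw).1.preimage continuous_subtype_val, ?_⟩
      obtain ⟨_, hyu, ⟨y, hyS, rfl⟩⟩ := (hW w hw).2
      exact ⟨y, hyu, hyS⟩
    · rintro _ ⟨u, hu, rfl⟩ _ ⟨v, hv, rfl⟩ hne
      have hne' : u ≠ v := fun h => hne (by rw [h])
      rw [Set.disjoint_left]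
      rintro y ⟨hyu, hyS⟩ ⟨hyv, _⟩
      exact Set.disjoint_left.1 (hWd u hu v hv hne') ⟨hyu, y, hyS, rfl⟩ ⟨hyv, y, hyS, rfl⟩
  · right
    intro D hDS hD
    have hDc : ((↑) ⁻¹' D : Set K).Countable := by
      refine he _ ?_ ?_
      · intro x hx
        obtain ⟨y, hyS, hyx⟩ := hDS hx
        rwa [Subtype.ext hyx] at hyS
      · intro x hx
        obtain ⟨U, hU, hs⟩ := hD x ⟨x, hx, rfl⟩
        refine ⟨(↑) ⁻¹' U, continuous_subtype_val.continuousAt.preimage_mem_nhds hU, ?_⟩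
        rintro y ⟨hyU, hyD⟩ z ⟨hzU, hzD⟩
        exact Subtype.ext (hs ⟨hyU, hyD⟩ ⟨hzU, hzD⟩)
    refine (hDc.image ((↑) : K → X)).mono ?_
    intro x hx
    obtain ⟨y, _, rfl⟩ := hDS hx
    exact ⟨y, hx, rfl⟩

lemma nowhereThin_kernel {K : Set X}
    (h : ∀ P : Set X, IsOpen P → (P ∩ K).Nonempty → ¬ Thin (P ∩ K)) :
    NowhereThin K := by
  intro O hO hne hthin
  obtain ⟨P, hP, rfl⟩ := isOpen_induced_iff.1 hO
  obtain ⟨x, hx⟩ := hne
  have him : ((↑) '' ((↑) ⁻¹' P : Set K) : Set X) = P ∩ K := by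
    rw [Subtype.image_preimage_coe, inter_comm]
  have := thin_of_thin_subtype hthin
  rw [him] at this
  exact h P hP ⟨x, hx, x.2⟩ this

theorem reduction :
    (∀ (X : Type u) [TopologicalSpace X], CollectionwiseNormal X → SigmaLocallyCountableBase X →
      MetrizableSpace X) ↔
    (∀ (X : Type u) [TopologicalSpace X], CollectionwiseNormal X → SigmaLocallyCountableBase X →
      NowhereThin X → MetrizableSpace X) := by
  constructor
  · intro h X _ h1 h2 _
    exact h X h1 h2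
  · intro h X _ h1 h2
    obtain ⟨K, hK, hns, hm⟩ := exists_kernel h1 h2
    exact hm (h K (cwn_closed h1 hK) (base_closed h2 K) (nowhereThin_kernel hns))

end Pool.Agent.Work.MP_8b5b22_gt
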