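import Mathlib

open Set Topology Filter TopologicalSpace

set_option linter.unusedSectionVars false

namespace Pool.Agent.Work.MP_8b5b22_gt

universe u

variable {X : Type u} [TopologicalSpace X]

/-- A collection of sets is locally countable if every point has a neighbourhood meeting only
countably many of its members. -/
def LocallyCountable (A : Set (Set X)) : Prop :=
  ∀ x : X, ∃ U ∈ 𝓝 x, {b ∈ A | (b ∩ U).Nonempty}.Countable

/-- The space has a sigma-locally countable base. -/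
def SigmaLocallyCountableBase (X : Type u) [TopologicalSpace X] : Prop :=
  ∃ B : ℕ → Set (Set X), IsTopologicalBasis (⋃ n, B n) ∧ ∀ n, LocallyCountable (B n)

/-- Collectionwise normal: `T1`, and every discrete family of closed sets can be enlarged to a
pairwise disjoint family of open sets. -/
def CollectionwiseNormal (X : Type u) [TopologicalSpace X] : Prop :=
  T1Space X ∧ ∀ (ι : Type u) (F : ι → Set X), (∀ i, IsClosed (F i)) →
      (∀ x : X, ∃ U ∈ 𝓝 x, ∀ i j, (F i ∩ U).Nonempty → (F j ∩ U).Nonempty → i = j) →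
      ∃ V : ι → Set X, (∀ i, IsOpen (V i)) ∧ (∀ i, F i ⊆ V i) ∧
        Pairwise (fun i j => Disjoint (V i) (V j))

/-- The subspace `S` satisfies the countable chain condition: a collection of open sets of the
space whose traces on `S` are nonempty and pairwise disjoint is countable. -/
def CCCSet (S : Set X) : Prop :=
  ∀ W : Set (Set X), (∀ u ∈ W, IsOpen u ∧ (u ∩ S).Nonempty) →
    (∀ u ∈ W, ∀ v ∈ W, u ≠ v → Disjoint (u ∩ S) (v ∩ S)) → W.Countable

/-- The subspace `S` has countable extent: every subset `D` of `S` which is closed and discrete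
in `S` (every point of `S` has a neighbourhood containing at most one point of `D`) is
countable. -/
def CountableExtent (S : Set X) : Prop :=
  ∀ D : Set X, D ⊆ S → (∀ x ∈ S, ∃ U ∈ 𝓝 x, (U ∩ D).Subsingleton) → D.Countable

/-- `S` meets only countably many members of `A`. -/
def Small (A : Set (Set X)) (S : Set X) : Prop := {b ∈ A | (b ∩ S).Nonempty}.Countable

lemma Small.mono {A : Set (Set X)} {S T : Set X} (h : Small A T) (hST : S ⊆ T) : Small A S := by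
  refine Set.Countable.mono ?_ h
  rintro b ⟨hb, hne⟩
  exact ⟨hb, hne.mono (inter_subset_inter_right _ hST)⟩

lemma small_empty {A : Set (Set X)} : Small A (∅ : Set X) := by
  simp [Small]

lemma small_biUnion {A : Set (Set X)} {ι : Type*} {I : Set ι} (hI : I.Countable)
    {S : ι → Set X} (h : ∀ i ∈ I, Small A (S i)) : Small A (⋃ i ∈ I, S i) := by
  have : {b ∈ A | (b ∩ ⋃ i ∈ I, S i).Nonempty} ⊆ ⋃ i ∈ I, {b ∈ A | (b ∩ S i).Nonempty} := by
    rintro b ⟨hb, x, hxb, hx⟩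
    simp only [mem_iUnion] at hx ⊢
    obtain ⟨i, hi, hxi⟩ := hx
    exact ⟨i, hi, hb, x, hxb, hxi⟩
  exact (hI.biUnion h).mono this

lemma small_union {A : Set (Set X)} {S T : Set X} (hS : Small A S) (hT : Small A T) :
    Small A (S ∪ T) := by
  have : {b ∈ A | (b ∩ (S ∪ T)).Nonempty} ⊆
      {b ∈ A | (b ∩ S).Nonempty} ∪ {b ∈ A | (b ∩ T).Nonempty} := by
    rintro b ⟨hb, x, hxb, hx | hx⟩
    · exact Or.inl ⟨hb, x, hxb, hx⟩
    · exact Or.inr ⟨hb, x, hxb, hx⟩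
  exact (Set.Countable.union hS hT).mono this

lemma small_iUnion_left {B : ℕ → Set (Set X)} {S : Set X} (h : ∀ n, Small (B n) S) :
    Small (⋃ n, B n) S := by
  have : {b ∈ ⋃ n, B n | (b ∩ S).Nonempty} ⊆ ⋃ n, {b ∈ B n | (b ∩ S).Nonempty} := by
    rintro b ⟨hb, hx⟩
    simp only [mem_iUnion] at hb ⊢
    obtain ⟨n, hn⟩ := hb
    exact ⟨n, hn, hx⟩
  exact (countable_iUnion h).mono this

/-- closure does not change smallness for collections of open sets. -/
lemma Small.closure_inter {A : Set (Set X)} (hA : ∀ b ∈ A, IsOpen b) {S N : Set X}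
    (hN : IsOpen N) (h : Small A (N ∩ S)) : Small A (N ∩ closure S) := by
  refine Set.Countable.mono ?_ h
  rintro b ⟨hb, x, hxb, hxN, hxS⟩
  obtain ⟨y, hy, hyS⟩ := mem_closure_iff.1 hxS (b ∩ N) ((hA b hb).inter hN) ⟨hxb, hxN⟩
  exact ⟨hb, y, hy.1, hy.2, hyS⟩

lemma small_of_extent {A B : Set (Set X)} (hA : LocallyCountable A) (hB : IsTopologicalBasis B)
    (hpc : ∀ x, {b ∈ B | x ∈ b}.Countable) {S : Set X} (hS : CountableExtent S) :
    Small A S := by
  let V : Set (Set X) := {b ∈ B | Small A b}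
  have hV : ∀ x, ∃ b ∈ V, x ∈ b := by
    intro x
    obtain ⟨U, hU, hUc⟩ := hA x
    obtain ⟨b, hb, hxb, hbU⟩ := hB.mem_nhds_iff.1 hU
    exact ⟨b, ⟨hb, Small.mono hUc hbU⟩, hxb⟩
  let P : Set (Set X) := {D | D ⊆ S ∧ ∀ b ∈ V, (b ∩ D).Subsingleton}
  obtain ⟨D, hD⟩ : ∃ D, Maximal (· ∈ P) D := by
    refine zorn_subset P fun c hcP hc => ⟨⋃₀ c, ⟨?_, ?_⟩, fun s hs => subset_sUnion_of_mem hs⟩
    · exact sUnion_subset fun s hs => (hcP hs).1
    · rintro b hb x ⟨hxb, s, hs, hxs⟩ y ⟨hyb, r, hr, hyr⟩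
      rcases hc.total hs hr with h | h
      · exact (hcP hr).2 b hb ⟨hxb, h hxs⟩ ⟨hyb, hyr⟩
      · exact (hcP hs).2 b hb ⟨hxb, hxs⟩ ⟨hyb, h hyr⟩
  have hDc : D.Countable := by
    refine hS D hD.prop.1 fun x _ => ?_
    obtain ⟨b, hb, hxb⟩ := hV x
    exact ⟨b, (hB.isOpen hb.1).mem_nhds hxb, hD.prop.2 b hb⟩
  refine Small.mono (T := ⋃ d ∈ D, ⋃ b ∈ {b ∈ V | d ∈ b}, b) (small_biUnion hDc fun d _ => ?_) ?_
  · refine small_biUnion ?_ fun b hb => hb.1.2
    refine (hpc d).mono ?_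
    rintro b ⟨hb, hdb⟩
    exact ⟨hb.1, hdb⟩
  · intro x hx
    simp only [mem_iUnion]
    by_cases hxD : x ∈ D
    · obtain ⟨b, hb, hxb⟩ := hV x
      exact ⟨x, hxD, b, ⟨hb, hxb⟩, hxb⟩
    · by_contra hcon
      have hnew : insert x D ∈ P := by
        refine ⟨insert_subset hx hD.prop.1, ?_⟩
        rintro b hb y ⟨hyb, hy⟩ z ⟨hzb, hz⟩
        rcases hy with rfl | hy <;> rcases hz with rfl | hz
        · rfl
        · exact absurd ⟨z, hz, b, ⟨hb, hzb⟩, hyb⟩ hcon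
        · exact absurd ⟨y, hy, b, ⟨hb, hyb⟩, hzb⟩ hcon
        · exact hD.prop.2 b hb ⟨hyb, hy⟩ ⟨hzb, hz⟩
      exact hxD (hD.le_of_ge hnew (subset_insert _ _) (mem_insert _ _))

lemma small_of_ccc {A : Set (Set X)} (hA : LocallyCountable A) (hAo : ∀ b ∈ A, IsOpen b)
    {S : Set X} (hS : CCCSet S) : Small A S := by
  -- maximal family of open sets, each small, with disjoint traces
  let P : Set (Set (Set X)) := {W | (∀ w ∈ W, IsOpen w ∧ (w ∩ S).Nonempty ∧ Small A w) ∧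
    (∀ u ∈ W, ∀ v ∈ W, u ≠ v → Disjoint (u ∩ S) (v ∩ S))}
  obtain ⟨W, hW⟩ : ∃ W, Maximal (· ∈ P) W := by
    refine zorn_subset P fun c hcP hc => ⟨⋃₀ c, ⟨?_, ?_⟩, fun s hs => subset_sUnion_of_mem hs⟩
    · rintro w ⟨s, hs, hw⟩
      exact (hcP hs).1 w hw
    · rintro u ⟨s, hs, hu⟩ v ⟨t, ht, hv⟩ huv
      rcases hc.total hs ht with h | h
      · exact (hcP ht).2 u (h hu) v hv huv
      · exact (hcP hs).2 u hu v (h hv) huv
  have hWc : W.Countable := hS W (fun w hw => ⟨(hW.prop.1 w hw).1, (hW.prop.1 w hw).2.1⟩)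
    hW.prop.2
  have hkey : {b ∈ A | (b ∩ S).Nonempty} ⊆ ⋃ w ∈ W, {b ∈ A | (b ∩ w).Nonempty} := by
    rintro b ⟨hb, x, hxb, hxS⟩
    obtain ⟨U, hU, hUc⟩ := hA x
    obtain ⟨O, hOU, hO, hxO⟩ := mem_nhds_iff.1 hU
    by_contra hcon
    simp only [mem_iUnion, mem_ofPred_eq, not_exists, not_and, not_nonempty_iff_eq_empty] at hcon
    have hnew : insert (O ∩ b) W ∈ P := by
      refine ⟨?_, ?_⟩
      · rintro w (rfl | hw)
        · exact ⟨hO.inter (hAo b hb), ⟨x, ⟨hxO, hxb⟩, hxS⟩,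
            Small.mono hUc (inter_subset_left.trans hOU)⟩
        · exact hW.prop.1 w hw
      · have hd : ∀ v ∈ W, Disjoint ((O ∩ b) ∩ S) (v ∩ S) := by
          intro v hv
          rw [Set.disjoint_left]
          rintro y ⟨⟨_, hyb⟩, _⟩ ⟨hyv, _⟩
          have := hcon v hv hb
          exact (this ▸ (⟨hyb, hyv⟩ : y ∈ b ∩ v) : y ∈ (∅ : Set X))
        rintro u (rfl | hu) v (rfl | hv) huv
        · exact absurd rfl huv
        · exact hd v hv
        · exact (hd u hu).symm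
        · exact hW.prop.2 u hu v hv huv
    have hmem : O ∩ b ∈ W := hW.le_of_ge hnew (subset_insert _ _) (mem_insert _ _)
    have := hcon _ hmem hb
    exact (this ▸ (⟨hxb, hxO, hxb⟩ : x ∈ b ∩ (O ∩ b)) : x ∈ (∅ : Set X))
  exact (hWc.biUnion fun w hw => (hW.prop.1 w hw).2.2).mono hkey

/-- Maximal open set on which an assignment of basic sets with small fibres exists. -/
lemma exists_maximal_assignment {B : Set (Set X)} (hB : IsTopologicalBasis B) (A : Set X) :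
    ∃ (O : Set X) (f : X → Set X), IsOpen O ∧
      (∀ x ∈ A ∩ O, f x ∈ B ∧ x ∈ f x ∧ f x ⊆ O) ∧
      (∀ b, Small B {x ∈ A ∩ O | f x = b}) ∧
      (∀ P, IsOpen P → (P ∩ (A \ O)).Nonempty → ¬ Small B (P ∩ (A \ O))) := by
  classical
  let Q : Type u := {p : Set X × (X → Set X) // IsOpen p.1 ∧
      (∀ x ∈ A ∩ p.1, p.2 x ∈ B ∧ x ∈ p.2 x ∧ p.2 x ⊆ p.1) ∧
      (∀ b, Small B {x ∈ A ∩ p.1 | p.2 x = b})}
  let r : Q → Q → Prop := fun p q => p.1.1 ⊆ q.1.1 ∧ ∀ x ∈ A ∩ p.1.1, p.1.2 x = q.1.2 x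
  have htrans : ∀ {a b c : Q}, r a b → r b c → r a c := by
    rintro a b c ⟨h1, h2⟩ ⟨h3, h4⟩
    exact ⟨h1.trans h3, fun x hx => (h2 x hx).trans (h4 x ⟨hx.1, h1 hx.2⟩)⟩
  obtain ⟨m, hm⟩ : ∃ m : Q, ∀ a, r m a → r a m := by
    refine exists_maximal_of_chains_bounded (r := r) ?_ htrans
    intro c hc
    have hcompat : ∀ p ∈ c, ∀ q ∈ c, ∀ x ∈ A, x ∈ p.1.1 → x ∈ q.1.1 → p.1.2 x = q.1.2 x := by
      intro p hp q hq x hxA hxp hxq
      by_cases hpq : p = q
      · rw [hpq]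
      · rcases hc hp hq hpq with h | h
        · exact h.2 x ⟨hxA, hxp⟩
        · exact (h.2 x ⟨hxA, hxq⟩).symm
    let f : X → Set X := fun x => if h : ∃ p ∈ c, x ∈ p.1.1 then (h.choose).1.2 x else ∅
    have hf : ∀ p ∈ c, ∀ x ∈ A, x ∈ p.1.1 → f x = p.1.2 x := by
      intro p hp x hxA hxp
      have h : ∃ p ∈ c, x ∈ p.1.1 := ⟨p, hp, hxp⟩
      simp only [f, dif_pos h]
      exact hcompat _ h.choose_spec.1 _ hp x hxA h.choose_spec.2 hxp
    refine ⟨⟨(⋃ p ∈ c, p.1.1, f), ?_, ?_, ?_⟩, ?_⟩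
    · exact isOpen_biUnion fun p _ => p.2.1
    · rintro x ⟨hxA, hx⟩
      simp only [mem_iUnion] at hx
      obtain ⟨p, hp, hxp⟩ := hx
      have := p.2.2.1 x ⟨hxA, hxp⟩
      simp only [hf p hp x hxA hxp]
      exact ⟨this.1, this.2.1, this.2.2.trans (subset_biUnion_of_mem (u := fun p : Q => p.1.1) hp)⟩
    · intro b
      rcases Set.eq_empty_or_nonempty {x ∈ A ∩ ⋃ p ∈ c, p.1.1 | f x = b} with he | ⟨x₀, hx₀, hfx₀⟩
      · simp only at he ⊢
        rw [he]; exact small_empty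
      · obtain ⟨hx₀A, hx₀⟩ := hx₀
        simp only [mem_iUnion] at hx₀
        obtain ⟨p, hp, hxp⟩ := hx₀
        have hb : b ⊆ p.1.1 := by
          rw [← hfx₀, hf p hp x₀ hx₀A hxp]
          exact (p.2.2.1 x₀ ⟨hx₀A, hxp⟩).2.2
        refine (p.2.2.2 b).mono ?_
        rintro x ⟨⟨hxA, hx⟩, hfx⟩
        simp only [mem_iUnion] at hx
        obtain ⟨q, hq, hxq⟩ := hx
        have h1 : x ∈ b := by
          rw [← hfx]
          simp only [hf q hq x hxA hxq]
          exact (q.2.2.1 x ⟨hxA, hxq⟩).2.1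
        have h2 : x ∈ p.1.1 := hb h1
        exact ⟨⟨hxA, h2⟩, by rw [← hfx]; exact (hf p hp x hxA h2).symm⟩
    · intro p hp
      refine ⟨subset_biUnion_of_mem (u := fun p : Q => p.1.1) hp, ?_⟩
      rintro x ⟨hxA, hxp⟩
      exact (hf p hp x hxA hxp).symm
  refine ⟨m.1.1, m.1.2, m.2.1, m.2.2.1, m.2.2.2, ?_⟩
  intro P hP hPne hPs
  have hg : ∀ x : X, ∃ b : Set X, x ∈ P → b ∈ B ∧ x ∈ b ∧ b ⊆ P := by
    intro x
    by_cases hx : x ∈ P
    · obtain ⟨b, hb, hxb, hbP⟩ := hB.exists_subset_of_mem_open hx hP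
      exact ⟨b, fun _ => ⟨hb, hxb, hbP⟩⟩
    · exact ⟨∅, fun h => absurd h hx⟩
  choose g hg using hg
  let f' : X → Set X := fun x => if x ∈ m.1.1 then m.1.2 x else g x
  let q : Q := ⟨(m.1.1 ∪ P, f'), by
    refine ⟨m.2.1.union hP, ?_, ?_⟩
    · rintro x ⟨hxA, hx⟩
      by_cases hxm : x ∈ m.1.1
      · have := m.2.2.1 x ⟨hxA, hxm⟩
        simp only [f', if_pos hxm]
        exact ⟨this.1, this.2.1, this.2.2.trans subset_union_left⟩
      · have hxP : x ∈ P := hx.resolve_left hxm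
        have := hg x hxP
        simp only [f', if_neg hxm]
        exact ⟨this.1, this.2.1, this.2.2.trans subset_union_right⟩
    · intro b
      refine (small_union (m.2.2.2 b) hPs).mono ?_
      rintro x ⟨⟨hxA, hx⟩, hfx⟩
      by_cases hxm : x ∈ m.1.1
      · simp only [f', if_pos hxm] at hfx
        exact Or.inl ⟨⟨hxA, hxm⟩, hfx⟩
      · exact Or.inr ⟨hx.resolve_left hxm, hxA, hxm⟩⟩
  have hmq : r m q := by
    refine ⟨subset_union_left, ?_⟩
    rintro x ⟨_, hxm⟩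
    simp [q, f', hxm]
  have hqm := hm q hmq
  obtain ⟨x, hxP, hxA, hxm⟩ := hPne
  exact hxm (hqm.1 (Or.inr hxP))

/-- A locally small closed set is obtained from every piece of the assignment. -/
lemma locallySmall_piece {C D : Set (Set X)} (hDo : ∀ b ∈ D, IsOpen b)
    (hC : LocallyCountable C) {A : Set X} {f : X → Set X}
    (hf : ∀ b, Small D {x ∈ A | f x = b}) (z : X) (hfx : ∀ x ∈ A, x ∈ f x) :
    ∃ N, IsOpen N ∧ z ∈ N ∧ Small D (N ∩ closure {x ∈ A | f x ∈ C}) := by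
  obtain ⟨U, hU, hUc⟩ := hC z
  obtain ⟨N, hNU, hN, hzN⟩ := mem_nhds_iff.1 hU
  refine ⟨N, hN, hzN, Small.closure_inter hDo hN ?_⟩
  refine Small.mono (T := ⋃ b ∈ {b ∈ C | (b ∩ U).Nonempty}, {x ∈ A | f x = b})
    (small_biUnion hUc fun b _ => hf b) ?_
  rintro x ⟨hxN, hxA, hxC⟩
  simp only [mem_iUnion, mem_ofPred_eq]
  exact ⟨f x, ⟨hxC, x, hfx x hxA, hNU hxN⟩, hxA, rfl⟩

end Pool.Agent.Work.MP_8b5b22_gt
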