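import Mathlib
import Pool.Agent.Work.MP_8b5b22_gt.G.Main

/-!
# A consistent counterexample: a nonmetrizable collectionwise normal space with a
# sigma-locally countable base under a weak form of diamond sharp
-/

open Topology

namespace Pool.Agent.Work.MP_8b5b22_gt.DiamondSharpCounterexample

/-- Let `Ω` be a well ordered set of order type `ω₁` (`CWG.Om`) on which the guessing principle
`CWG.Sharp` (a consequence of Devlin's diamond sharp, hence true in the constructible universe)
holds.  Then there is a T1 space in which every discrete family of closed sets has a pairwise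
disjoint open expansion, with a sigma-locally countable base, and which is not metrizable. -/
theorem result :
    (∃ (Ω : Type) (_ : LinearOrder Ω), WellFoundedLT Ω ∧ CWG.Om Ω ∧ CWG.Sharp Ω) →
    ∃ (X : Type) (_ : TopologicalSpace X), T1Space X ∧
      (∀ (ι : Type) (F : ι → Set X), (∀ i, IsClosed (F i)) →
        (∀ x : X, ∃ U ∈ 𝓝 x, ∀ i j, (F i ∩ U).Nonempty → (F j ∩ U).Nonempty → i = j) →
        ∃ V : ι → Set X, (∀ i, IsOpen (V i)) ∧ (∀ i, F i ⊆ V i) ∧
          Pairwise (fun i j => Disjoint (V i) (V j))) ∧
      (∃ B : ℕ → Set (Set X), TopologicalSpace.IsTopologicalBasis (⋃ n, B n) ∧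
        ∀ n, ∀ x : X, ∃ U ∈ 𝓝 x, {b ∈ B n | (b ∩ U).Nonempty}.Countable) ∧
      ¬ TopologicalSpace.MetrizableSpace X := by
  rintro ⟨Ω, hΩ, hwf, hO, hS⟩
  exact CWG.main Ω hO hS

end Pool.Agent.Work.MP_8b5b22_gt.DiamondSharpCounterexample
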