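import Pool.Agent.Work.MP_8b5b22_gt.Basic

open Set Topology Filter TopologicalSpace

set_option linter.unusedSectionVars false

namespace Pool.Agent.Work.MP_8b5b22_gt

universe u

variable {X : Type u} [t : TopologicalSpace X]

/-- discrete collection of closed sets -/
def DiscreteColl (F : Set (Set X)) : Prop :=
  (∀ S ∈ F, IsClosed S) ∧
    ∀ x : X, ∃ U ∈ 𝓝 x, ∀ S ∈ F, ∀ T ∈ F, (S ∩ U).Nonempty → (T ∩ U).Nonempty → S = T

/-- countably many discrete collections of closed sets forming a network at all points of `Y` -/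
def NetworkOn (Y : Set X) : Prop :=
  ∃ F : ℕ → Set (Set X), (∀ i, DiscreteColl (F i)) ∧
    ∀ y ∈ Y, ∀ O, IsOpen O → y ∈ O → ∃ i, ∃ S ∈ F i, y ∈ S ∧ S ⊆ O

lemma NetworkOn.mono {Y Z : Set X} (h : NetworkOn Z) (hYZ : Y ⊆ Z) : NetworkOn Y := by
  obtain ⟨F, h1, h2⟩ := h
  exact ⟨F, h1, fun y hy => h2 y (hYZ hy)⟩

lemma networkOn_iUnion {Y : ℕ → Set X} (h : ∀ n, NetworkOn (Y n)) : NetworkOn (⋃ n, Y n) := by
  choose F h1 h2 using h
  refine ⟨fun k => F k.unpair.1 k.unpair.2, fun k => h1 _ _, ?_⟩
  intro y hy O hO hyO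
  obtain ⟨n, hn⟩ := mem_iUnion.1 hy
  obtain ⟨i, S, hS, hyS, hSO⟩ := h2 n y hn O hO hyO
  exact ⟨Nat.pair n i, S, by simpa using hS, hyS, hSO⟩

lemma networkOn_union {Y Z : Set X} (hY : NetworkOn Y) (hZ : NetworkOn Z) :
    NetworkOn (Y ∪ Z) := by
  refine (networkOn_iUnion (Y := fun n => if n = 0 then Y else Z) ?_).mono ?_
  · intro n; by_cases hn : n = 0
    · simpa [hn] using hY
    · simpa [hn] using hZ
  · rintro x (hx | hx)
    · exact mem_iUnion.2 ⟨0, by simpa using hx⟩
    · exact mem_iUnion.2 ⟨1, by simpa using hx⟩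

lemma normal_of_cwn (h : CollectionwiseNormal X) : NormalSpace X := by
  constructor
  intro C D hC hD hCD
  obtain ⟨V, hV, hFV, hVd⟩ := h.2 (ULift.{u} Bool) (fun b => if b.down then C else D)
    (by rintro ⟨b⟩; cases b <;> simpa) (by
      intro x
      by_cases hx : x ∈ C
      · refine ⟨Dᶜ, hD.isOpen_compl.mem_nhds (fun hxD => Set.disjoint_left.1 hCD hx hxD), ?_⟩
        rintro ⟨i⟩ ⟨j⟩ hi hj
        cases i <;> cases j <;> simp_all
      · refine ⟨Cᶜ, hC.isOpen_compl.mem_nhds hx, ?_⟩
        rintro ⟨i⟩ ⟨j⟩ hi hj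
        cases i <;> cases j <;> simp_all)
  refine ⟨V ⟨true⟩, V ⟨false⟩, hV _, hV _, by simpa using hFV ⟨true⟩, by simpa using hFV ⟨false⟩,
    hVd (by simp)⟩

/-- the hedgehog pseudometric -/
lemma exists_uniform (hN : NormalSpace X) {ι : Type*} (O : ι → Set X) (hO : ∀ i, IsOpen (O i))
    (hd : Pairwise (fun i j => Disjoint (O i) (O j))) {C : Set X} (hC : IsClosed C)
    (hCO : C ⊆ ⋃ i, O i) :
    ∃ u : UniformSpace X, (@uniformity X u).IsCountablyGenerated ∧ t ≤ u.toTopologicalSpace ∧
      ∀ i, ∀ x ∈ C ∩ O i, O i ∈ @nhds X u.toTopologicalSpace x := by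
  classical
  obtain ⟨h, h0, h1, h01⟩ := exists_continuous_zero_one_of_isClosed
    (isOpen_iUnion hO).isClosed_compl hC (by
      rw [Set.disjoint_left]; intro x hx hxC; exact hx (hCO hxC))
  let s : X → Option ι := fun x => if hx : ∃ i, x ∈ O i then some hx.choose else none
  have hs : ∀ i, ∀ x ∈ O i, s x = some i := by
    intro i x hx
    have hex : ∃ i, x ∈ O i := ⟨i, hx⟩
    simp only [s, dif_pos hex]
    by_contra hne
    have hne' : hex.choose ≠ i := fun h => hne (by rw [h])
    exact Set.disjoint_left.1 (hd hne') hex.choose_spec hx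
  have hs' : ∀ i x, s x = some i → x ∈ O i := by
    intro i x hx
    by_cases hex : ∃ i, x ∈ O i
    · simp only [s, dif_pos hex, Option.some.injEq] at hx
      rw [← hx]; exact hex.choose_spec
    · simp [s, dif_neg hex] at hx
  have hpos : ∀ x, 0 ≤ h x := fun x => (h01 x).1
  let d : X → X → ℝ := fun x y => if s x = s y then |h x - h y| else h x + h y
  have hdle : ∀ x y, d x y ≤ h x + h y := by
    intro x y
    by_cases hxy : s x = s y
    · simp only [d, if_pos hxy]
      rw [abs_le]; constructor <;> linarith [hpos x, hpos y]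
    · simp only [d, if_neg hxy]; exact le_rfl
  let pm : PseudoMetricSpace X :=
    { dist := d
      dist_self := by intro x; simp [d]
      dist_comm := by
        intro x y
        by_cases hxy : s x = s y
        · simp only [d, if_pos hxy, if_pos hxy.symm]; exact abs_sub_comm _ _
        · simp only [d, if_neg hxy, if_neg (Ne.symm hxy)]; ring
      dist_triangle := by
        intro x y z
        show d x z ≤ d x y + d y z
        by_cases hxz : s x = s z
        · by_cases hxy : s x = s y
          · have hyz : s y = s z := hxy.symm.trans hxz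
            simp only [d, if_pos hxy, if_pos hxz, if_pos hyz]
            exact abs_sub_le _ _ _
          · have hyz : s y ≠ s z := fun h => hxy (hxz.trans h.symm)
            simp only [d, if_neg hxy, if_neg hyz, if_pos hxz]
            rw [abs_le]; constructor <;> linarith [hpos x, hpos y, hpos z]
        · by_cases hxy : s x = s y
          · have hyz : s y ≠ s z := fun h => hxz (hxy.trans h)
            simp only [d, if_pos hxy, if_neg hyz, if_neg hxz]
            linarith [le_abs_self (h x - h y)]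
          · by_cases hyz : s y = s z
            · simp only [d, if_neg hxy, if_pos hyz, if_neg hxz]
              linarith [neg_abs_le (h y - h z)]
            · simp only [d, if_neg hxy, if_neg hyz, if_neg hxz]
              linarith [hpos y] }
  refine ⟨pm.toUniformSpace, inferInstance, ?_, ?_⟩
  · refine le_of_nhds_le_nhds fun x => ?_
    refine (@Metric.nhds_basis_ball X pm x).ge_iff.2 fun ε hε => ?_
    by_cases hx : ∃ i, x ∈ O i
    · obtain ⟨i, hi⟩ := hx
      have : {y | |h x - h y| < ε} ∩ O i ∈ 𝓝 x := by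
        refine Filter.inter_mem ?_ ((hO i).mem_nhds hi)
        have hc : Continuous fun y => |h x - h y| := by fun_prop
        exact (isOpen_lt hc continuous_const).mem_nhds (by simpa using hε)
      refine Filter.mem_of_superset this ?_
      rintro y ⟨hy, hyi⟩
      show d y x < ε
      have : s y = s x := by rw [hs i y hyi, hs i x hi]
      simp only [d, if_pos this]
      rw [abs_sub_comm]; exact hy
    · have hx0 : h x = 0 := h0 (by simpa using hx)
      have : {y | h y < ε} ∈ 𝓝 x :=
        (isOpen_lt h.continuous continuous_const).mem_nhds (by simpa [hx0] using hε)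
      refine Filter.mem_of_superset this ?_
      intro y hy
      show d y x < ε
      have := hdle y x
      rw [hx0] at this
      exact lt_of_le_of_lt (by linarith) hy
  · rintro i x ⟨hxC, hxi⟩
    refine (@Metric.nhds_basis_ball X pm x).mem_iff.2 ⟨1, one_pos, ?_⟩
    intro y hy
    have hy' : d y x < 1 := hy
    have hx1 : h x = 1 := h1 hxC
    by_cases hsyx : s y = s x
    · exact hs' i y (by rw [hsyx, hs i x hxi])
    · simp only [d, if_neg hsyx, hx1] at hy'
      linarith [hpos y]

lemma metrizable_of_network (hX : CollectionwiseNormal X) {B : Set (Set X)}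
    (hB : IsTopologicalBasis B) (hpc : ∀ x, {b ∈ B | x ∈ b}.Countable)
    (hnet : NetworkOn (univ : Set X)) : MetrizableSpace X := by
  classical
  obtain ⟨F, hF, hnet⟩ := hnet
  have hN := normal_of_cwn hX
  have := hX.1
  -- names of the basic sets containing S
  have hG : ∀ S : Set X, ∃ g : ℕ → Set X, (∀ j, IsOpen (g j) ∧ S ⊆ g j) ∧
      (S.Nonempty → ∀ b ∈ B, S ⊆ b → ∃ j, g j = b) := by
    intro S
    by_cases hne : ({b ∈ B | S ⊆ b} : Set (Set X)).Nonempty
    · by_cases hSne : S.Nonempty
      · obtain ⟨x, hx⟩ := hSne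
        have hc : ({b ∈ B | S ⊆ b} : Set (Set X)).Countable := by
          refine (hpc x).mono ?_
          rintro b ⟨hb, hSb⟩
          exact ⟨hb, hSb hx⟩
        obtain ⟨g, hg⟩ := hc.exists_eq_range hne
        refine ⟨g, fun j => ?_, fun _ b hb hSb => ?_⟩
        · have : g j ∈ ({b ∈ B | S ⊆ b} : Set (Set X)) := by rw [hg]; exact mem_range_self j
          exact ⟨hB.isOpen this.1, this.2⟩
        · have : b ∈ ({b ∈ B | S ⊆ b} : Set (Set X)) := ⟨hb, hSb⟩
          rw [hg] at this
          exact this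
      · exact ⟨fun _ => univ, fun _ => ⟨isOpen_univ, subset_univ _⟩, fun h => absurd h hSne⟩
    · refine ⟨fun _ => univ, fun _ => ⟨isOpen_univ, subset_univ _⟩, fun _ b hb hSb => ?_⟩
      exact absurd ⟨b, hb, hSb⟩ hne
  choose g hg1 hg2 using hG
  -- expansions
  have hV : ∀ i, ∃ V : F i → Set X, (∀ S, IsOpen (V S)) ∧ (∀ S : F i, (S : Set X) ⊆ V S) ∧
      Pairwise (fun S T => Disjoint (V S) (V T)) := by
    intro i
    refine hX.2 (F i) (fun S => (S : Set X)) (fun S => (hF i).1 S.1 S.2) ?_
    intro x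
    obtain ⟨U, hU, h⟩ := (hF i).2 x
    exact ⟨U, hU, fun S T hS hT => Subtype.ext (h S.1 S.2 T.1 T.2 hS hT)⟩
  choose V hV1 hV2 hV3 using hV
  have hC : ∀ i, IsClosed (⋃ S : F i, (S : Set X)) := by
    intro i
    refine LocallyFinite.isClosed_iUnion ?_ (fun S => (hF i).1 S.1 S.2)
    intro x
    obtain ⟨U, hU, h⟩ := (hF i).2 x
    refine ⟨U, hU, Set.Subsingleton.finite ?_⟩
    intro S hS T hT
    exact Subtype.ext (h S.1 S.2 T.1 T.2 hS hT)
  have hu : ∀ p : ℕ × ℕ, ∃ u : UniformSpace X, (@uniformity X u).IsCountablyGenerated ∧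
      t ≤ u.toTopologicalSpace ∧
      ∀ S : F p.1, ∀ x ∈ (⋃ S : F p.1, (S : Set X)) ∩ (V p.1 S ∩ g S p.2),
        V p.1 S ∩ g S p.2 ∈ @nhds X u.toTopologicalSpace x := by
    rintro ⟨i, j⟩
    refine exists_uniform hN (fun S : F i => V i S ∩ g S j)
      (fun S => (hV1 i S).inter (hg1 S j).1) ?_ (hC i) ?_
    · intro S T hST
      exact (hV3 i hST).mono inter_subset_left inter_subset_left
    · intro x hx
      obtain ⟨S, hS⟩ := mem_iUnion.1 hx
      exact mem_iUnion.2 ⟨S, hV2 i S hS, (hg1 S j).2 hS⟩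
  choose u hu1 hu2 hu3 using hu
  have htop : t = (⨅ p, u p).toTopologicalSpace := by
    apply le_antisymm
    · rw [UniformSpace.toTopologicalSpace_iInf]
      exact le_iInf hu2
    · refine le_of_nhds_le_nhds fun x => ?_
      intro O hO
      obtain ⟨b, hb, hxb, hbO⟩ := hB.mem_nhds_iff.1 hO
      obtain ⟨i, S, hS, hxS, hSb⟩ := hnet x (mem_univ x) b (hB.isOpen hb) hxb
      obtain ⟨j, hj⟩ := hg2 S ⟨x, hxS⟩ b hb hSb
      have h3 := hu3 (i, j) ⟨S, hS⟩ x ⟨mem_iUnion.2 ⟨⟨S, hS⟩, hxS⟩, hV2 i ⟨S, hS⟩ hxS,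
        (hg1 S j).2 hxS⟩
      have hle : @nhds X (⨅ p, u p).toTopologicalSpace x ≤ @nhds X (u (i, j)).toTopologicalSpace x :=
        nhds_mono (UniformSpace.toTopologicalSpace_mono (iInf_le u (i, j)))
      refine Filter.mem_of_superset (hle h3) ?_
      simp only [hj]
      exact inter_subset_right.trans hbO
  subst htop
  have : (@uniformity X (⨅ p, u p)).IsCountablyGenerated := by
    rw [iInf_uniformity]
    have : ∀ p, (@uniformity X (u p)).IsCountablyGenerated := hu1
    infer_instance
  exact @UniformSpace.metrizableSpace X (⨅ p, u p) this inferInstance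

end Pool.Agent.Work.MP_8b5b22_gt
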