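import Pool.Agent.Work.MP_8b5b22_gt.Metrize

open Set Topology Filter TopologicalSpace

set_option linter.unusedSectionVars false

namespace Pool.Agent.Work.MP_8b5b22_gt

universe u

variable {X : Type u} [t : TopologicalSpace X]

lemma network_locallySmall [RegularSpace X] {B : Set (Set X)} (hB : IsTopologicalBasis B)
    {Y : Set X} (hY : IsClosed Y) (hloc : ∀ z, ∃ N, IsOpen N ∧ z ∈ N ∧ Small B (N ∩ Y)) :
    NetworkOn Y := by
  classical
  let W : Set (Set X) := {b ∈ B | Small B (b ∩ Y)}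
  have hW : ∀ y : X, ∃ b ∈ W, y ∈ b := by
    intro y
    obtain ⟨N, hN, hyN, hs⟩ := hloc y
    obtain ⟨b, hb, hyb, hbN⟩ := hB.exists_subset_of_mem_open hyN hN
    exact ⟨b, ⟨hb, hs.mono (inter_subset_inter_left _ hbN)⟩, hyb⟩
  let R : Set X → Set X → Prop := fun c d => c ∈ W ∧ d ∈ W ∧ (c ∩ d ∩ Y).Nonempty
  have hRs : ∀ c d, R c d → R d c := by
    rintro c d ⟨hc, hd, hne⟩
    exact ⟨hd, hc, by rwa [inter_comm d c]⟩
  have hsymm : ∀ b c, Relation.ReflTransGen R b c → Relation.ReflTransGen R c b := by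
    intro b c h
    induction h with
    | refl => exact Relation.ReflTransGen.refl
    | tail _ h ih => exact Relation.ReflTransGen.head (hRs _ _ h) ih
  let comp : Set X → Set (Set X) := fun b => {c | Relation.ReflTransGen R b c}
  have hcompW : ∀ b ∈ W, comp b ⊆ W := by
    intro b hb c hc
    rcases Relation.ReflTransGen.cases_tail hc with h | ⟨d, _, h⟩
    · rw [h]; exact hb
    · exact h.2.1
  have hcompeq : ∀ b c, c ∈ comp b → comp b = comp c := by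
    intro b c hc
    have hcb : Relation.ReflTransGen R c b := hsymm _ _ hc
    ext d
    exact ⟨fun hd => hcb.trans hd, fun hd => Relation.ReflTransGen.trans hc hd⟩
  have hcompc : ∀ b ∈ W, (comp b).Countable := by
    intro b hb
    let T : ℕ → Set (Set X) := fun n => Nat.rec {b} (fun _ T => ⋃ c ∈ T, {d | R c d}) n
    have hT : ∀ n, (T n).Countable ∧ T n ⊆ W := by
      intro n
      induction n with
      | zero => exact ⟨countable_singleton b, by simpa [T] using hb⟩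
      | succ n ih =>
        refine ⟨ih.1.biUnion fun c hc => ?_, ?_⟩
        · refine Set.Countable.mono ?_ (ih.2 hc).2
          rintro d ⟨_, hd, x, ⟨hxc, hxd⟩, hxY⟩
          exact ⟨hd.1, x, hxd, hxc, hxY⟩
        · intro d hd
          simp only [T, mem_iUnion] at hd
          obtain ⟨c, _, hR⟩ := hd
          exact hR.2.1
    refine (countable_iUnion fun n => (hT n).1).mono ?_
    intro c hc
    induction hc with
    | refl => exact mem_iUnion.2 ⟨0, rfl⟩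
    | tail _ h ih =>
      obtain ⟨n, hn⟩ := mem_iUnion.1 ih
      refine mem_iUnion.2 ⟨n + 1, ?_⟩
      simp only [T, mem_iUnion]
      exact ⟨_, hn, h⟩
  let P : Set (Set X) := {S | ∃ b ∈ W, S = Y ∩ ⋃₀ comp b}
  have hmeet : ∀ b ∈ W, ∀ c ∈ W, ((Y ∩ ⋃₀ comp b) ∩ c).Nonempty → comp b = comp c := by
    rintro b hb c hc ⟨x, ⟨hxY, d, hd, hxd⟩, hxc⟩
    have hdW := hcompW b hb hd
    have : Relation.ReflTransGen R b c :=
      Relation.ReflTransGen.tail hd ⟨hdW, hc, x, ⟨hxd, hxc⟩, hxY⟩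
    exact hcompeq b c this
  have hPc : ∀ S ∈ P, IsClosed S := by
    rintro S ⟨b, hb, rfl⟩
    rw [← isOpen_compl_iff, isOpen_iff_mem_nhds]
    intro x hx
    by_cases hxY : x ∈ Y
    · obtain ⟨c, hc, hxc⟩ := hW x
      refine Filter.mem_of_superset ((hB.isOpen hc.1).mem_nhds hxc) ?_
      intro y hyc hy
      have heq := hmeet b hb c hc ⟨y, hy, hyc⟩
      apply hx
      refine ⟨hxY, c, ?_, hxc⟩
      rw [heq]
      exact Relation.ReflTransGen.refl
    · exact Filter.mem_of_superset (hY.isOpen_compl.mem_nhds hxY) fun y hy hy' => hy hy'.1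
  have hPd : ∀ x : X, ∃ U ∈ 𝓝 x, ∀ S ∈ P, ∀ T ∈ P, (S ∩ U).Nonempty → (T ∩ U).Nonempty →
      S = T := by
    intro x
    obtain ⟨c, hc, hxc⟩ := hW x
    refine ⟨c, (hB.isOpen hc.1).mem_nhds hxc, ?_⟩
    rintro S ⟨b, hb, rfl⟩ T ⟨b', hb', rfl⟩ h h'
    rw [hmeet b hb c hc h, hmeet b' hb' c hc h']
  have hPs : ∀ S ∈ P, Small B S := by
    rintro S ⟨b, hb, rfl⟩
    refine Small.mono (T := ⋃ d ∈ comp b, d ∩ Y)
      (small_biUnion (hcompc b hb) fun d hd => (hcompW b hb hd).2) ?_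
    rintro x ⟨hxY, d, hd, hxd⟩
    simp only [mem_iUnion]
    exact ⟨d, hd, hxd, hxY⟩
  have he : ∀ S : Set X, ∃ e : ℕ → Set X, S ∈ P → ∀ b ∈ B, (b ∩ S).Nonempty → ∃ j, e j = b := by
    intro S
    by_cases hS : S ∈ P ∧ ({b ∈ B | (b ∩ S).Nonempty} : Set (Set X)).Nonempty
    · obtain ⟨e, he⟩ := (hPs S hS.1).exists_eq_range hS.2
      refine ⟨e, fun _ b hb hne => ?_⟩
      have : b ∈ ({b ∈ B | (b ∩ S).Nonempty} : Set (Set X)) := ⟨hb, hne⟩
      rw [he] at this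
      exact this
    · refine ⟨fun _ => ∅, fun hSP b hb hne => ?_⟩
      exact absurd ⟨hSP, b, hb, hne⟩ hS
  choose e he using he
  refine ⟨fun j => {F | ∃ S ∈ P, F = closure (e S j) ∩ S}, fun j => ⟨?_, ?_⟩, ?_⟩
  · rintro F ⟨S, hS, rfl⟩
    exact isClosed_closure.inter (hPc S hS)
  · intro x
    obtain ⟨U, hU, h⟩ := hPd x
    refine ⟨U, hU, ?_⟩
    rintro F ⟨S, hS, rfl⟩ G ⟨T, hT, rfl⟩ ⟨y, hy, hyU⟩ ⟨z, hz, hzU⟩
    rw [h S hS T hT ⟨y, hy.2, hyU⟩ ⟨z, hz.2, hzU⟩]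
  · intro y hy O hO hyO
    obtain ⟨c, hc, hyc⟩ := hW y
    have hSP : Y ∩ ⋃₀ comp c ∈ P := ⟨c, hc, rfl⟩
    have hyS : y ∈ Y ∩ ⋃₀ comp c := ⟨hy, c, Relation.ReflTransGen.refl, hyc⟩
    obtain ⟨V, hV, hVc, hVO⟩ := exists_mem_nhds_isClosed_subset (hO.mem_nhds hyO)
    obtain ⟨b, hb, hyb, hbV⟩ := hB.mem_nhds_iff.1 hV
    obtain ⟨j, hj⟩ := he _ hSP b hb ⟨y, hyb, hyS⟩
    refine ⟨j, closure (e (Y ∩ ⋃₀ comp c) j) ∩ (Y ∩ ⋃₀ comp c), ⟨_, hSP, rfl⟩, ⟨?_, hyS⟩, ?_⟩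
    · rw [hj]; exact subset_closure hyb
    · rw [hj]; exact inter_subset_left.trans ((closure_minimal hbV hVc).trans hVO)

lemma network_metrizable {K : Set X} (hK : IsClosed K) [MetrizableSpace K] : NetworkOn K := by
  classical
  let _ : MetricSpace K := metrizableSpaceMetric K
  let r : ℕ → ℝ := fun m => 1 / ((m : ℝ) + 1)
  have hr : ∀ m, 0 < r m := fun m => by positivity
  let E : ℕ → ℕ → K → Set K := fun m n s => {x | dist x s < r m ∧
    Metric.ball x (r n) ⊆ Metric.ball s (r m) ∧ ∀ p : K, WellOrderingRel p s → ¬ dist x p < r m}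
  have hE : ∀ m n s p, ∀ x ∈ E m n s, ∀ y ∈ E m n p, s ≠ p → r n ≤ dist x y := by
    intro m n s p x hx y hy hsp
    by_contra hlt
    push Not at hlt
    rcases trichotomous_of WellOrderingRel s p with h | h | h
    · have : y ∈ Metric.ball s (r m) := hx.2.1 (by rw [Metric.mem_ball, dist_comm]; exact hlt)
      exact hy.2.2 s h this
    · exact hsp h
    · have : x ∈ Metric.ball p (r m) := hy.2.1 (by rw [Metric.mem_ball]; exact hlt)
      exact hx.2.2 p h this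
  have hcl : ∀ S : Set K, IsClosed S → IsClosed ((↑) '' S : Set X) :=
    fun S hS => hK.isClosedEmbedding_subtypeVal.isClosedMap S hS
  refine ⟨fun k => {F | ∃ s : K, F = (↑) '' closure (E k.unpair.1 k.unpair.2 s)}, fun k => ⟨?_, ?_⟩,
    ?_⟩
  · rintro F ⟨s, rfl⟩
    exact hcl _ isClosed_closure
  · intro x
    by_cases hx : x ∈ K
    · have hb : Metric.ball (⟨x, hx⟩ : K) (r k.unpair.2 / 2) ∈ 𝓝 (⟨x, hx⟩ : K) :=
        Metric.ball_mem_nhds _ (half_pos (hr _))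
      obtain ⟨O, hO, hOx⟩ := isOpen_induced_iff.1
        (Metric.isOpen_ball (x := (⟨x, hx⟩ : K)) (ε := r k.unpair.2 / 2))
      have hxO : x ∈ O := by
        have : (⟨x, hx⟩ : K) ∈ ((↑) ⁻¹' O : Set K) := by
          rw [hOx]; exact Metric.mem_ball_self (half_pos (hr _))
        exact this
      refine ⟨O, hO.mem_nhds hxO, ?_⟩
      rintro F ⟨s, rfl⟩ G ⟨p, rfl⟩ ⟨_, ⟨y, hy, rfl⟩, hyO⟩ ⟨_, ⟨z, hz, rfl⟩, hzO⟩
      have hyb : y ∈ Metric.ball (⟨x, hx⟩ : K) (r k.unpair.2 / 2) := by rw [← hOx]; exact hyO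
      have hzb : z ∈ Metric.ball (⟨x, hx⟩ : K) (r k.unpair.2 / 2) := by rw [← hOx]; exact hzO
      obtain ⟨y', hy'b, hy'⟩ := mem_closure_iff.1 hy _ Metric.isOpen_ball hyb
      obtain ⟨z', hz'b, hz'⟩ := mem_closure_iff.1 hz _ Metric.isOpen_ball hzb
      by_cases hsp : s = p
      · rw [hsp]
      · exfalso
        have h1 := hE _ _ s p y' hy' z' hz' hsp
        have h2 : dist y' z' ≤ dist y' ⟨x, hx⟩ + dist z' ⟨x, hx⟩ := dist_triangle_right _ _ _
        rw [Metric.mem_ball] at hy'b hz'b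
        linarith
    · refine ⟨Kᶜ, hK.isOpen_compl.mem_nhds hx, ?_⟩
      rintro F ⟨s, rfl⟩ G ⟨p, rfl⟩ ⟨_, ⟨y, hy, rfl⟩, hyO⟩ _
      exact absurd y.2 hyO
  · intro y hy O hO hyO
    have hO' : IsOpen ((↑) ⁻¹' O : Set K) := hO.preimage continuous_subtype_val
    obtain ⟨ε, hε, hball⟩ := Metric.isOpen_iff.1 hO' ⟨y, hy⟩ hyO
    obtain ⟨m, hm⟩ := exists_nat_one_div_lt (half_pos hε)
    have hm' : r m < ε / 2 := hm
    -- least centre
    have hne : {s : K | dist (⟨y, hy⟩ : K) s < r m}.Nonempty :=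
      ⟨⟨y, hy⟩, by simpa using hr m⟩
    obtain ⟨s, hs, hmin⟩ := (IsWellFounded.wf (r := (WellOrderingRel : K → K → Prop))).has_min _ hne
    obtain ⟨δ, hδ, hδb⟩ := Metric.isOpen_iff.1 (Metric.isOpen_ball (x := s) (ε := r m))
      (⟨y, hy⟩ : K) hs
    obtain ⟨n, hn⟩ := exists_nat_one_div_lt hδ
    have hyE : (⟨y, hy⟩ : K) ∈ E m n s := by
      refine ⟨hs, (Metric.ball_subset_ball (le_of_lt hn)).trans hδb, ?_⟩
      intro p hp hlt
      exact hmin p hlt hp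
    refine ⟨Nat.pair m n, (↑) '' closure (E m n s), ⟨s, by simp⟩,
      ⟨⟨y, hy⟩, subset_closure hyE, rfl⟩, ?_⟩
    rintro _ ⟨z, hz, rfl⟩
    have hz' : z ∈ Metric.closedBall s (r m) := by
      refine closure_minimal ?_ Metric.isClosed_closedBall hz
      intro w hw
      exact le_of_lt hw.1
    rw [Metric.mem_closedBall] at hz'
    apply hball
    rw [Metric.mem_ball]
    have h1 : dist z (⟨y, hy⟩ : K) ≤ dist z s + dist (⟨y, hy⟩ : K) s := dist_triangle_right _ _ _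
    have h2 : dist (⟨y, hy⟩ : K) s < r m := hs
    linarith

end Pool.Agent.Work.MP_8b5b22_gt
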